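import Pool.Agent.Helper17.CR.Stmts

/-!
Module NUMQ: a normal `q`-subgroup bounds the block size.
-/

set_option autoImplicit false

namespace Pool.Agent.Helper30.CR

open Finset Pool.Agent.Helper17.CR

universe u

/-- the arithmetic -/
theorem numq_arith (K L A N j u α : ℤ) (hL : 1 ≤ L) (hA : 1 ≤ A) (hN : 2 ≤ N) (hj : 1 ≤ j)
    (hu : 1 ≤ u) (hα : α ^ 2 = K - L) (h1 : A * (N - 1) = j * (K + α)) (h2 : K - α = N * u) :
    K ≤ (5 * A) ^ 2 + L := by
  obtain ⟨s, hs⟩ : ∃ s, s = |α| := ⟨_, rfl⟩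
  have hs0 : 0 ≤ s := hs ▸ abs_nonneg α
  have hs2 : s ^ 2 = K - L := by rw [hs, sq_abs, hα]
  have hs3 : α ≤ s := hs ▸ le_abs_self α
  have hs4 : -s ≤ α := by
    have := neg_abs_le α
    rw [hs]; exact this
  have hK : K = s ^ 2 + L := by linarith
  have h3 : 2 * s ≤ K := by nlinarith [sq_nonneg (s - 1)]
  have h4 : 1 ≤ K - s := by
    rcases eq_or_lt_of_le hs0 with h | h
    · rw [← h] at hK ⊢
      nlinarith
    · linarith
  -- bound for u
  have h5 : K - s ≤ A * N := by
    have : K - s ≤ j * (K + α) := by nlinarith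
    nlinarith
  have h6 : u ≤ 3 * A := by
    by_contra hc
    push Not at hc
    have h7 : N * (3 * A + 1) ≤ N * u := by nlinarith
    have h8 : N * u ≤ K + s := by linarith
    have h9 : K + s ≤ 3 * (K - s) := by linarith
    nlinarith
  -- b = j u
  obtain ⟨b, hb⟩ : ∃ b, b = j * u := ⟨_, rfl⟩
  have hb1 : 1 ≤ b := by rw [hb]; nlinarith
  have h7 : A * (K - α - u) = b * (K + α) := by
    have : A * (N - 1) * u = j * (K + α) * u := by rw [h1]
    rw [hb, h2]
    linear_combination this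
  have h8 : b ≤ 3 * A := by
    by_contra hc
    push Not at hc
    have h9 : (3 * A + 1) * (K - s) ≤ b * (K - s) := by nlinarith
    have h10 : b * (K - s) ≤ b * (K + α) := by nlinarith
    have h11 : A * (K - α - u) ≤ A * (K + s) := by nlinarith
    have h12 : A * (K + s) ≤ A * (3 * (K - s)) := by nlinarith
    nlinarith
  have h9 : s ≤ 5 * A := by
    rcases eq_or_ne A b with h | h
    · -- a = b
      have h10 : A * (u + 2 * α) = 0 := by
        rw [← h] at h7
        linear_combination -h7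
      have h11 : u + 2 * α = 0 := by
        rcases mul_eq_zero.1 h10 with h | h
        · omega
        · exact h
      have h12 : s = -α := by
        rw [hs]
        exact abs_of_nonpos (by linarith)
      linarith
    · have h10 : (A - b) * K = (A + b) * α + A * u := by linear_combination h7
      have h11 : K ≤ |(A - b) * K| := by
        rw [abs_mul, abs_of_nonneg (by nlinarith : (0 : ℤ) ≤ K)]
        have : 1 ≤ |A - b| := Int.one_le_abs (sub_ne_zero.2 h)
        nlinarith
      have h12 : |(A + b) * α + A * u| ≤ (A + b) * s + A * u := by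
        refine (abs_add_le _ _).trans ?_
        rw [abs_mul, abs_mul, ← hs, abs_of_nonneg (by linarith : (0 : ℤ) ≤ A + b),
          abs_of_nonneg (by linarith : (0 : ℤ) ≤ A), abs_of_nonneg (by linarith : (0 : ℤ) ≤ u)]
      have h13 : K ≤ 4 * A * s + 3 * A ^ 2 := by
        have h14 : (A + b) * s ≤ 4 * A * s := by nlinarith
        have h15 : A * u ≤ 3 * A ^ 2 := by nlinarith
        rw [h10] at h11
        linarith
      by_contra hc
      push Not at hc
      nlinarith
  nlinarith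

theorem st_NUMQ : ST_NUMQ.{u} := by
  intro G _ _ lam r k a hlam hr hA q hq hq2 Q hQn hQp hQ
  classical
  have _ := Fintype.ofFinite G
  have := Fact.mk hq
  have hqp : Prime (q : ℤ) := Nat.prime_iff_prime_int.1 hq
  have val' : ∀ g ∈ Q, g ≠ 1 → ∃ α : ℤ, α ^ 2 = (k : ℤ) - lam ∧ (q : ℤ) ∣ k - α ∧
      (a g : ℤ) = k - α := by
    intro g hg hg1
    obtain ⟨e, he⟩ := hQp ⟨g, hg⟩
    refine hA.val q e hq hq2 g hg1 ?_
    have := congrArg Subtype.val he
    simpa using this
  have hq2' : ¬ (q : ℤ) ∣ 2 := by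
    intro h
    have h' : q ∣ 2 := by exact_mod_cast h
    exact hq2 (h'.mul_right _)
  have hql : ¬ (q : ℤ) ∣ lam := by
    intro h
    have h' : q ∣ lam := by exact_mod_cast h
    exact hq2 (h'.mul_left _)
  have nodvd : ∀ α : ℤ, α ^ 2 = (k : ℤ) - lam → (q : ℤ) ∣ k - α → ¬ (q : ℤ) ∣ k + α := by
    intro α h1 h2 h3
    have h4 : (q : ℤ) ∣ 2 * α := by
      have := dvd_sub h3 h2
      have e : (k : ℤ) + α - (k - α) = 2 * α := by ring
      rwa [e] at this
    have h5 : (q : ℤ) ∣ α := (hqp.dvd_or_dvd h4).resolve_left hq2'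
    have h6 : (q : ℤ) ∣ k := by
      have := dvd_add h2 h5
      have e : (k : ℤ) - α + α = k := by ring
      rwa [e] at this
    have h7 : (q : ℤ) ∣ k - lam := by
      rw [← h1, sq]
      exact h5.mul_right _
    have h8 : (q : ℤ) ∣ lam := by
      have := dvd_sub h6 h7
      have e : (k : ℤ) - (k - lam) = lam := by ring
      rwa [e] at this
    exact hql h8
  obtain ⟨g0, hg0, hg01⟩ : ∃ g ∈ Q, g ≠ 1 := (Subgroup.bot_or_exists_ne_one Q).resolve_left hQ
  obtain ⟨α, hα, hαq, hα0⟩ := val' g0 hg0 hg01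
  have hall : ∀ g ∈ Q, g ≠ 1 → (a g : ℤ) = k - α := by
    intro g hg hg1
    obtain ⟨β, hβ, hβq, hβ0⟩ := val' g hg hg1
    have h1 : β = α ∨ β = -α := by
      have : β ^ 2 = α ^ 2 := by rw [hβ, hα]
      exact sq_eq_sq_iff_eq_or_eq_neg.1 this
    rcases h1 with h1 | h1
    · rw [hβ0, h1]
    · exfalso
      rw [h1] at hβq
      have e : (k : ℤ) - -α = k + α := by ring
      rw [e] at hβq
      exact nodvd α hα hαq hβq
  -- the sum over Q - 1
  have hE := hA.inv (univ.filter (fun g : G => g ∈ Q ∧ g ≠ 1)) (by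
    intro g hg h
    simp only [mem_filter, mem_univ, true_and] at hg ⊢
    refine ⟨hQn.conj_mem g hg.1 h, ?_⟩
    rw [Ne, conj_eq_one_iff]
    exact hg.2)
  have hcard : (univ.filter (fun g : G => g ∈ Q ∧ g ≠ 1)).card + 1 = Nat.card Q := by
    have e1 : univ.filter (fun g : G => g ∈ Q ∧ g ≠ 1) = (univ.filter (fun g : G => g ∈ Q)).erase 1 := by
      ext g
      simp only [mem_filter, mem_univ, true_and, mem_erase]
      exact and_comm
    have e2 : (univ.filter (fun g : G => g ∈ Q)).card = Nat.card Q := by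
      rw [Nat.card_eq_fintype_card, Fintype.card_subtype]
    rw [e1, ← e2]
    exact card_erase_add_one (by simp [Q.one_mem])
  have hsum : ((∑ g ∈ univ.filter (fun g : G => g ∈ Q ∧ g ≠ 1), a g : ℕ) : ℤ) =
      ((Nat.card Q : ℤ) - 1) * (k - α) := by
    push_cast
    rw [Finset.sum_congr rfl (fun g hg => hall g (mem_filter.1 hg).2.1 (mem_filter.1 hg).2.2),
      Finset.sum_const, nsmul_eq_mul]
    have : ((univ.filter (fun g : G => g ∈ Q ∧ g ≠ 1)).card : ℤ) = (Nat.card Q : ℤ) - 1 := by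
      rw [← hcard]; push_cast; ring
    rw [this]
  obtain ⟨j, hj⟩ := hE
  have hj' : (Nat.card G : ℤ) * j = ((Nat.card Q : ℤ) - 1) * (k - α) := by
    rw [← hsum, hj]
    push_cast
    ring
  have hk : (1 : ℤ) ≤ k := by
    have := hA.lt
    have h : 1 ≤ k := by omega
    exact_mod_cast h
  have hlam' : (1 : ℤ) ≤ lam := by exact_mod_cast hlam
  have hr' : (1 : ℤ) ≤ r := by exact_mod_cast hr
  have hpar : (k : ℤ) ^ 2 - α ^ 2 = lam * r * Nat.card G := by
    rw [hα]
    linear_combination hA.par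
  have hsmall : |α| < k := by
    refine abs_lt_of_sq_lt_sq ?_ (by linarith)
    rw [hα]
    nlinarith
  obtain ⟨hα1, hα2⟩ := abs_lt.1 hsmall
  have hQ2 : (2 : ℤ) ≤ Nat.card Q := by
    have h1 : 1 ≤ (univ.filter (fun g : G => g ∈ Q ∧ g ≠ 1)).card :=
      card_pos.2 ⟨g0, by simp [hg0, hg01]⟩
    have h2 : 2 ≤ Nat.card Q := by omega
    exact_mod_cast h2
  have h1 : (lam : ℤ) * r * ((Nat.card Q : ℤ) - 1) = j * (k + α) := by
    have h3 : ((k : ℤ) - α) * (lam * r * ((Nat.card Q : ℤ) - 1)) = (k - α) * (j * (k + α)) := by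
      linear_combination (-(lam : ℤ) * r) * hj' - j * hpar
    have h4 : ((k : ℤ) - α) ≠ 0 := by
      intro h
      linarith
    exact mul_left_cancel₀ h4 h3
  have hA1 : (1 : ℤ) ≤ lam * r := by nlinarith
  have hj1 : (1 : ℤ) ≤ j := by
    by_contra hc
    have h0 : (j : ℤ) = 0 := by
      have : (0 : ℤ) ≤ j := Int.natCast_nonneg _
      omega
    rw [h0] at h1
    nlinarith
  -- |Q| divides k - α
  have hcop : IsCoprime (Nat.card Q : ℤ) ((k : ℤ) + α) := by
    obtain ⟨t, ht⟩ := (IsPGroup.iff_card (p := q)).1 hQp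
    rw [ht]
    push_cast
    exact (hqp.irreducible.coprime_iff_not_dvd.2 (nodvd α hα hαq)).pow_left
  have hdiv : (Nat.card Q : ℤ) ∣ k - α := by
    have h3 : (Nat.card Q : ℤ) ∣ (k - α) * (k + α) := by
      have h4 : (Nat.card Q : ℤ) ∣ Nat.card G := by exact_mod_cast Subgroup.card_subgroup_dvd_card Q
      have e : ((k : ℤ) - α) * (k + α) = lam * r * Nat.card G := by
        linear_combination hpar
      rw [e]
      exact h4.mul_left _
    exact hcop.dvd_of_dvd_mul_right h3
  obtain ⟨u, hu⟩ := hdiv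
  have hu1 : 1 ≤ u := by
    by_contra hc
    have : u ≤ 0 := by omega
    nlinarith
  have := numq_arith (k : ℤ) lam (lam * r) (Nat.card Q) j u α hlam' hA1 hQ2 hj1 hu1 hα h1 hu
  have h' : ((k : ℕ) : ℤ) ≤ (((5 * lam * r) ^ 2 + lam : ℕ) : ℤ) := by
    push_cast
    calc (k : ℤ) ≤ (5 * (lam * r)) ^ 2 + lam := this
      _ = (5 * lam * r) ^ 2 + lam := by ring
  exact_mod_cast h'

end Pool.Agent.Helper30.CR
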